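import Mathlib
import Pool.Agent.Work.MP_77d073_nt.HypResult
import Pool.Agent.Work.MP_77d073_nt.Reduce
import Pool.Agent.Work.MP_77d073_nt.GapChain2
import Pool.Agent.Work.MP_77d073_nt.GapGC

set_option autoImplicit false

namespace Pool.Agent.Work.MP_77d073_nt.Old.ComplexityGap

open Filter Topology Polynomial Pool.Agent.Work.MP_77d073_nt Pool.Agent.Work.MP_77d073_nt.Gap

/-- `M` is an integer matrix of determinant `±1` such that the forms `t_i L_i ∘ M` have all
coefficients at most `K` in absolute value. -/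
def Reduced {n : ℕ} (L : Fin n → Fin n → ℝ) (K : ℝ) (t : Fin n → ℝ)
    (M : Matrix (Fin n) (Fin n) ℤ) : Prop :=
  (M.det = 1 ∨ M.det = -1) ∧ ∀ i j, |t i * ∑ k, L i k * (M k j : ℝ)| ≤ K

/-- There are `N` vectors such that at every diagonal position `t` (positive, product one) with the
property `P` some reduced version of the form `L i₀` is, up to a scalar factor, within `ε` of one
of these vectors. -/
def Captured {n : ℕ} (L : Fin n → Fin n → ℝ) (i₀ : Fin n) (K ε : ℝ) (P : (Fin n → ℝ) → Prop)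
    (N : ℕ) : Prop :=
  ∃ y : Fin N → Fin n → ℝ, ∀ t : Fin n → ℝ, (∀ i, 0 < t i) → ∏ i, t i = 1 → P t →
    ∃ M : Matrix (Fin n) (Fin n) ℤ, Reduced L K t M ∧ ∃ (j : Fin N) (θ : ℝ),
      ∀ k, |t i₀ * ∑ l, L i₀ l * (M l k : ℝ) - θ * y j k| ≤ ε

/-- Gap theorem: the conclusion of Oppenheim's conjecture holds for `L` as soon as at one small
scale `ε` at most `κ (log 1/ε)^(n - n/p)` different reduced hyperplanes of one form are visible
near a segment of length `S ε` of one ray of diagonal positions (`p` the least prime factor of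
`n`), and then there are only finitely many reduced hyperplanes at all. -/
theorem result (n : ℕ) (hn : 3 ≤ n) (i₀ : Fin n) (c D : ℝ) (hc : 0 < c) (hD : 0 < D) :
    ∃ K₀ : ℝ, ∀ K : ℝ, K₀ ≤ K → ∃ (κ ε₀ : ℝ) (S : ℝ → ℝ), 0 < κ ∧ 0 < ε₀ ∧
      ∀ L : Fin n → Fin n → ℝ,
      |(Matrix.of L).det| = D →
      (∀ p : Fin n → ℤ, p ≠ 0 → c ≤ |∏ i, ∑ j, L i j * (p j : ℝ)|) →
      List.TFAE [
        (∃ A : Matrix (Fin n) (Fin n) ℤ,
          A.det = 1 ∧
          Irreducible (A.charpoly.map (Int.castRingHom ℚ)) ∧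
          (∀ z : ℂ, Polynomial.aeval z A.charpoly = 0 → z.im = 0) ∧
          ∀ i : Fin n, ∀ x : Fin n → ℝ, ∑ j, L i j * x j = 0 →
            ∑ j, L i j * ((A.map (Int.cast : ℤ → ℝ)).mulVec x) j = 0),
        (∃ N : ℕ, Captured L i₀ K 0 (fun _ => True) N),
        (∃ ε : ℝ, 0 < ε ∧ ε < ε₀ ∧ ∃ N : ℕ,
          (N : ℝ) ≤ κ * Real.log (1 / ε) ^ (n - n / n.minFac) ∧
          Captured L i₀ K ε
            (fun t => ∃ s : ℝ, 0 ≤ s ∧ s ≤ S ε ∧
              ∀ i, i ≠ i₀ → |Real.log (t i) + s| ≤ Real.log (1 / ε))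
            N)] := by
  classical
  have hn1 : 1 ≤ n := by omega
  obtain ⟨β, hβ, hred⟩ := reduction hn1 hc hD
  refine ⟨β, fun K hK => ?_⟩
  have hK0 : 0 < K := lt_of_lt_of_le hβ hK
  set m : ℕ := 10000 * n ^ 3 with hm
  have hmpos : 0 < m := by positivity
  have hm0 : (0 : ℝ) < m := by exact_mod_cast hmpos
  have hm1 : (1 : ℝ) ≤ m := by exact_mod_cast hmpos
  obtain ⟨κ, hκ, T0, hT0, hchain⟩ := chain_fin n hn hc hD hK0 m (le_of_eq hm)
  -- the window function
  have hwin : ∀ T : ℝ, ∃ S : ℝ, T0 ≤ T →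
      ∀ L : Fin n → Fin n → ℝ, Sys c D L →
      ∀ (i₀ : Fin n), ∀ N : ℕ, (N : ℝ) ≤ κ * (Real.log T) ^ (n - n / n.minFac) →
      ∀ y : Fin N → Fin n → ℝ,
      (∀ t : Fin n → ℝ, Pos t →
        (∃ s : ℝ, 0 ≤ s ∧ s ≤ S ∧ ∀ i, i ≠ i₀ → |Real.log (t i) + s| ≤ Real.log T) →
        ∃ M : Matrix (Fin n) (Fin n) ℤ, Red L K t M ∧ ∃ (j : Fin N) (θ : ℝ),
          ∀ k, |tr L M t i₀ k - θ * y j k| * T ^ m ≤ 1) →
      ∃ (M : Matrix (Fin n) (Fin n) ℤ) (t : Fin n → ℝ), Pos t ∧ IsUnit M.det ∧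
        Concl (tr L M t) := by
    intro T
    by_cases hT : T0 ≤ T
    · obtain ⟨S, -, hS⟩ := hchain T hT
      exact ⟨S, fun _ => hS⟩
    · exact ⟨0, fun h => absurd h hT⟩
  choose Sw hSw using hwin
  have hq : n / n.minFac < n := Nat.div_lt_self (by omega) (Nat.minFac_prime (by omega)).one_lt
  set e : ℕ := n - n / n.minFac with he
  have he1 : 1 ≤ e := Nat.sub_pos_of_lt hq
  have hen : e ≤ n := Nat.sub_le _ _
  refine ⟨κ / (m : ℝ) ^ n, min 1 ((T0 ^ m)⁻¹), fun ε => Sw (Real.exp (Real.log (1 / ε) / m)),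
    by positivity, by positivity, ?_⟩
  intro L hdet hlow
  have hsys : Sys c D L := ⟨hdet, hlow⟩
  tfae_have 1 → 2 := by
    rintro ⟨A, -, hirr, -, hinv⟩
    obtain ⟨N, y, hy⟩ := conv n hn1 L hc hD hsys A hirr hinv i₀ K
    refine ⟨N, y, fun t ht hprod _ => ?_⟩
    -- reduction at `t`
    have hdet' : |(Matrix.of (fun i j => t i * L i j)).det| = D := by
      have h1 : (Matrix.of (fun i j => t i * L i j)).det = (∏ i, t i) * (Matrix.of L).det := by
        exact Matrix.det_mul_column t (Matrix.of L)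
      rw [h1, hprod, one_mul, hdet]
    have hlow' : ∀ p : Fin n → ℤ, p ≠ 0 → c ≤ |∏ i, ∑ j, (t i * L i j) * (p j : ℝ)| := by
      intro p hp
      have h1 : ∏ i, ∑ j, (t i * L i j) * (p j : ℝ) = ∏ i, ∑ j, L i j * (p j : ℝ) := by
        have h2 : ∀ i, ∑ j, (t i * L i j) * (p j : ℝ) = t i * ∑ j, L i j * (p j : ℝ) := by
          intro i
          rw [Finset.mul_sum]
          exact Finset.sum_congr rfl fun j _ => by ring
        simp_rw [h2]
        rw [Finset.prod_mul_distrib, hprod, one_mul]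
      rw [h1]
      exact hlow p hp
    obtain ⟨M, hM, hMb⟩ := hred (fun i j => t i * L i j) hdet' hlow'
    have hMb' : ∀ i j, |t i * ∑ k, L i k * (M k j : ℝ)| ≤ K := by
      intro i j
      have h1 : t i * ∑ k, L i k * (M k j : ℝ) = ∑ l, t i * L i l * (M l j : ℝ) := by
        rw [Finset.mul_sum]
        exact Finset.sum_congr rfl fun k _ => by ring
      rw [h1]
      exact (hMb i j).trans hK
    refine ⟨M, ⟨hM, hMb'⟩, ?_⟩
    have hu : IsUnit M.det := by
      rcases hM with h | h <;> simp [h]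
    obtain ⟨j, θ, hθ⟩ := hy t M ⟨ht, hprod⟩ ⟨hu, hMb'⟩
    refine ⟨j, θ, fun k => ?_⟩
    have := hθ k
    unfold tr at this
    rw [this]; simp
  tfae_have 2 → 3 := by
    rintro ⟨N, y, hy⟩
    -- choose a small scale
    obtain ⟨x, hx1, hx2⟩ : ∃ x : ℝ, Real.log (1 / min 1 ((T0 ^ m)⁻¹)) + 1 ≤ x ∧
        (N : ℝ) ≤ κ / (m : ℝ) ^ n * x ^ e := by
      set z : ℝ := κ / (m : ℝ) ^ n with hz
      have hz0 : 0 < z := by positivity
      refine ⟨max (max (Real.log (1 / min 1 ((T0 ^ m)⁻¹)) + 1) 1) (N / z), 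
        (le_max_left _ _).trans (le_max_left _ _), ?_⟩
      set x := max (max (Real.log (1 / min 1 ((T0 ^ m)⁻¹)) + 1) 1) (N / z) with hx
      have h1 : 1 ≤ x := (le_max_right _ _).trans (le_max_left _ _)
      have h2 : N / z ≤ x := le_max_right _ _
      have h3 : x ≤ x ^ e := le_self_pow₀ h1 (by omega)
      rw [div_le_iff₀ hz0] at h2
      nlinarith
    set ε₀ : ℝ := min 1 ((T0 ^ m)⁻¹) with hε₀
    have hε₀pos : 0 < ε₀ := by positivity
    refine ⟨Real.exp (-x), Real.exp_pos _, ?_, N, ?_, y, ?_⟩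
    · rw [← Real.lt_log_iff_exp_lt hε₀pos]
      rw [one_div, Real.log_inv] at hx1
      linarith
    · rw [one_div, ← Real.exp_neg, neg_neg, Real.log_exp]
      exact hx2
    · intro t ht hprod _
      obtain ⟨M, hM, j, θ, h⟩ := hy t ht hprod trivial
      exact ⟨M, hM, j, θ, fun k => (h k).trans (Real.exp_pos _).le⟩
  tfae_have 3 → 1 := by
    rintro ⟨ε, hε, hε₀, N, hN, y, hy⟩
    have hε1 : ε < 1 := lt_of_lt_of_le hε₀ (min_le_left _ _)
    have hεT : ε < (T0 ^ m)⁻¹ := lt_of_lt_of_le hε₀ (min_le_right _ _)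
    set l : ℝ := Real.log (1 / ε) with hl
    have hl0 : 0 < l := Real.log_pos (by rw [lt_div_iff₀ hε]; linarith)
    set T : ℝ := Real.exp (l / m) with hT
    have hTm : T ^ m = 1 / ε := by
      rw [hT, ← Real.exp_nat_mul, mul_div_cancel₀ _ hm0.ne', hl, Real.exp_log (by positivity)]
    have hTT0 : T0 ≤ T := by
      have h1 : T0 ^ m ≤ T ^ m := by
        rw [hTm, one_div]
        have h2 : 0 < T0 ^ m := by positivity
        rw [le_inv_comm₀ h2 hε]
        exact hεT.le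
      exact le_of_pow_le_pow_left₀ (by omega) (Real.exp_pos _).le h1
    have hlogT : Real.log T = l / m := by rw [hT, Real.log_exp]
    have hlogle : Real.log T ≤ l := by
      rw [hlogT]
      exact div_le_self hl0.le hm1
    have hN' : (N : ℝ) ≤ κ * Real.log T ^ e := by
      refine hN.trans ?_
      rw [hlogT, div_pow]
      have h1 : (m : ℝ) ^ e ≤ (m : ℝ) ^ n := pow_le_pow_right₀ hm1 hen
      have h2 : κ / (m : ℝ) ^ n ≤ κ / (m : ℝ) ^ e := by gcongr
      calc κ / (m : ℝ) ^ n * l ^ e ≤ κ / (m : ℝ) ^ e * l ^ e := by gcongr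
        _ = κ * (l ^ e / (m : ℝ) ^ e) := by ring
    obtain ⟨M0, t0, ht0, hM0, hcl⟩ := hSw T hTT0 L hsys i₀ N hN' y (by
      intro t ht hti
      obtain ⟨s, hs0, hs1, hs⟩ := hti
      obtain ⟨M, ⟨hM, hMb⟩, j, θ, h⟩ := hy t ht.1 ht.2
        ⟨s, hs0, hs1, fun i hi => (hs i hi).trans hlogle⟩
      have hu : IsUnit M.det := by
        rcases hM with h | h <;> simp [h]
      refine ⟨M, ⟨hu, hMb⟩, j, θ, fun k => ?_⟩
      rw [hTm]
      have h1 := h k
      unfold tr
      rw [mul_one_div, div_le_one hε]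
      exact h1)
    have hli : LinearIndependent ℝ L := by
      have h1 : (Matrix.of L).det ≠ 0 := by
        intro h
        rw [h, abs_zero] at hdet
        linarith
      exact Matrix.linearIndependent_rows_of_det_ne_zero h1
    obtain ⟨A, -, hA2, -, hA4⟩ := hcl
    refine Pool.Agent.Work.MP_77d073_nt.HypResult.result n hn L hli ⟨c, hc, hlow⟩ (fun _ => M0) (fun _ => t0)
      (tr L M0 t0) (fun _ => hM0.ne_zero) (fun _ => ht0.2)
      (fun i j => tendsto_const_nhds) i₀ (toQ A) ?_ ?_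
    · unfold toQ
      have h1 := Matrix.charpoly_map A (Int.castRingHom ℚ)
      have h2 : A.map (Int.castRingHom ℚ) = A.map (Int.cast : ℤ → ℚ) := rfl
      rw [← h2, h1]
      exact hA2
    · intro x hx
      have h2 : (toQ A).map (Rat.cast : ℚ → ℝ) = A.map (Int.cast : ℤ → ℝ) := by
        ext i j
        simp [toQ]
      rw [h2]
      exact hA4 i₀ x hx
  tfae_finish

end Pool.Agent.Work.MP_77d073_nt.Old.ComplexityGap
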