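import Mathlib
import Pool.Agent.Work.MP_77d073_nt.RootGraph
import Pool.Agent.Work.MP_77d073_nt.PairResult

set_option autoImplicit false

namespace Pool.Agent.Work.MP_77d073_nt.Old.RootDirections

open Filter Topology Pool.Agent.Work.MP_77d073_nt

/-- The product of the forms is bounded away from zero on nonzero integer points. -/
def Bounded {n : ℕ} (L : Fin n → Fin n → ℝ) : Prop :=
  ∃ c : ℝ, 0 < c ∧ ∀ p : Fin n → ℤ, p ≠ 0 → c ≤ |∏ i, ∑ j, L i j * (p j : ℝ)|

/-- The conclusion of Oppenheim's conjecture for the system `L`. -/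
def Conclusion {n : ℕ} (L : Fin n → Fin n → ℝ) : Prop :=
  ∃ A : Matrix (Fin n) (Fin n) ℤ,
    A.det = 1 ∧
    Irreducible (A.charpoly.map (Int.castRingHom ℚ)) ∧
    (∀ z : ℂ, Polynomial.aeval z A.charpoly = 0 → z.im = 0) ∧
    ∀ i : Fin n, ∀ x : Fin n → ℝ, ∑ j, L i j * x j = 0 →
      ∑ j, L i j * ((A.map (Int.cast : ℤ → ℝ)).mulVec x) j = 0

/-- `L'` is a limit of systems `t_i L_i ∘ M` with `M` unimodular and `∏ t_i = 1`. -/
def IsLimit {n : ℕ} (L L' : Fin n → Fin n → ℝ) : Prop :=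
  ∃ (M : ℕ → Matrix (Fin n) (Fin n) ℤ) (t : ℕ → Fin n → ℝ),
    (∀ k, (M k).det = 1 ∨ (M k).det = -1) ∧ (∀ k, ∏ i, t k i = 1) ∧
    ∀ i j, Tendsto (fun k => t k i * ∑ l, L i l * (M k l j : ℝ)) atTop (𝓝 (L' i j))

/-- The arrow from `i` to `k`: two limits `L'`, `L''` of `L` differ only in their `i`-th forms,
and `L''_i = L'_i + L'_k`. -/
def Arrow {n : ℕ} (L : Fin n → Fin n → ℝ) (i k : Fin n) : Prop :=
  i ≠ k ∧ ∃ L' L'' : Fin n → Fin n → ℝ, IsLimit L L' ∧ IsLimit L L'' ∧
    ∀ m, L'' m = if m = i then L' i + L' k else L' m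

theorem arrow_of_pr {n : ℕ} {L : Fin n → Fin n → ℝ} {i k : Fin n} (hik : i ≠ k)
    (h : Root.Pr (closure (orb L)) i k) : Arrow L i k := by
  obtain ⟨Z, hZ, Z', hZ', hrel⟩ := h
  refine ⟨hik, Z, Z', mem_closure_orb hZ, mem_closure_orb hZ', fun m => ?_⟩
  funext b
  rw [hrel m b]
  split_ifs with h
  · rw [h]; rfl
  · rw [add_zero]

/-- Oppenheim's conjecture and the directions of elementary changes in the orbit closure: if the
conclusion holds for `L` there are no arrows; if it fails there are many. -/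
theorem result (n : ℕ) (hn : 3 ≤ n) (L : Fin n → Fin n → ℝ) (hL : LinearIndependent ℝ L)
    (hb : Bounded L) :
    (Conclusion L → ∀ i k : Fin n, ¬ Arrow L i k) ∧
    (¬ Conclusion L →
      (n = 3 → ∀ i k : Fin n, i ≠ k → Arrow L i k) ∧
      (n.Prime → ∀ I : Finset (Fin n), I.Nonempty → I ≠ Finset.univ →
        ∃ i ∈ I, ∃ k ∉ I, Arrow L i k) ∧
      (∀ j : Fin n, (∃ k, Arrow L j k) ∧ ∃ i, Arrow L i j)) := by
  classical
  refine ⟨fun hconc i k => ?_, fun hnot => ?_⟩
  · rintro ⟨hik, L', L'', h1, h2, h3⟩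
    exact (PairResult.result.1 n hn L hL hb).mpr ⟨L', L'', h1, h2, i, k, hik, h3⟩ hconc
  · obtain ⟨c, hc, hlow⟩ := hb
    have hcompl : ∀ I : Finset (Fin n), I ≠ Finset.univ → Iᶜ.Nonempty := by
      intro I hI
      rw [Finset.nonempty_iff_ne_empty]
      intro h
      exact hI ((Finset.compl_eq_empty_iff I).mp h)
    have hleave := fun (I : Finset (Fin n)) hI hI' hcase =>
      Root.leave hn hL hc hlow hnot I hI hI' hcase
    refine ⟨fun h3 i k hik => arrow_of_pr hik (Root.all_pairs h3 hL hc hlow hnot i k hik),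
      fun hp I hI hI' => ?_, fun j => ?_⟩
    · obtain ⟨l, hl, m, hm, hlm⟩ := hleave I hI (hcompl I hI') (Or.inr (Or.inr hp))
      exact ⟨l, hl, m, hm, arrow_of_pr (fun h => hm (h ▸ hl)) hlm⟩
    · obtain ⟨m, hm⟩ : ∃ m : Fin n, m ≠ j := by
        have h1 : Nontrivial (Fin n) := Fin.nontrivial_iff_two_le.mpr (by omega)
        exact exists_ne j
      have hcard : (({j} : Finset (Fin n))ᶜ).card + 1 = n := by
        have h1 := Finset.card_add_card_compl ({j} : Finset (Fin n))
        rw [Finset.card_singleton, Fintype.card_fin] at h1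
        omega
      constructor
      · obtain ⟨l, hl, m', hm', hlm⟩ := hleave {j} (Finset.singleton_nonempty j)
          ⟨m, by simpa using hm⟩ (Or.inl (Finset.card_singleton j))
        rw [Finset.mem_singleton] at hl hm'
        subst hl
        exact ⟨m', arrow_of_pr (Ne.symm hm') hlm⟩
      · obtain ⟨l, hl, m', hm', hlm⟩ := hleave ({j}ᶜ) ⟨m, by simpa using hm⟩
          (by rw [compl_compl]; exact ⟨j, by simp⟩) (Or.inr (Or.inl hcard))
        rw [Finset.mem_compl, Finset.mem_singleton] at hl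
        rw [Finset.mem_compl, Finset.mem_singleton, not_not] at hm'
        subst hm'
        exact ⟨l, arrow_of_pr hl hlm⟩

end Pool.Agent.Work.MP_77d073_nt.Old.RootDirections
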