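import Mathlib
import Pool.Agent.Work.MP_77d073_nt.PairResult
import Pool.Agent.Work.MP_77d073_nt.Wall.Out
import Pool.Agent.Work.MP_77d073_nt.Wall.In
import Pool.Agent.Work.MP_77d073_nt.Wall.Min
import Pool.Agent.Work.MP_77d073_nt.Wall.Nrm

set_option autoImplicit false

namespace Pool.Agent.Work.MP_77d073_nt.Old.RootsAndWalls

open Filter Topology Pool.Agent.Work.MP_77d073_nt

/-- The product of the forms is bounded away from zero on nonzero integer points. -/
def Bounded {n : ℕ} (L : Fin n → Fin n → ℝ) : Prop :=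
  ∃ c : ℝ, 0 < c ∧ ∀ p : Fin n → ℤ, p ≠ 0 → c ≤ |∏ i, ∑ j, L i j * (p j : ℝ)|

/-- The conclusion of Oppenheim's conjecture for the system `L`. -/
def Conclusion {n : ℕ} (L : Fin n → Fin n → ℝ) : Prop :=
  ∃ A : Matrix (Fin n) (Fin n) ℤ,
    A.det = 1 ∧
    Irreducible (A.charpoly.map (Int.castRingHom ℚ)) ∧
    (∀ z : ℂ, Polynomial.aeval z A.charpoly = 0 → z.im = 0) ∧
    ∀ i : Fin n, ∀ x : Fin n → ℝ, ∑ j, L i j * x j = 0 →
      ∑ j, L i j * ((A.map (Int.cast : ℤ → ℝ)).mulVec x) j = 0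

/-- `L'` is a limit of systems `t_i L_i ∘ M` with `M` unimodular and `∏ t_i = 1`. -/
def IsLimit {n : ℕ} (L L' : Fin n → Fin n → ℝ) : Prop :=
  ∃ (M : ℕ → Matrix (Fin n) (Fin n) ℤ) (t : ℕ → Fin n → ℝ),
    (∀ k, (M k).det = 1 ∨ (M k).det = -1) ∧ (∀ k, ∏ i, t k i = 1) ∧
    ∀ i j, Tendsto (fun k => t k i * ∑ l, L i l * (M k l j : ℝ)) atTop (𝓝 (L' i j))

/-- The same with scalings that satisfy `t_a = t_b`. -/
def WallLimit {n : ℕ} (a b : Fin n) (L L' : Fin n → Fin n → ℝ) : Prop :=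
  ∃ (M : ℕ → Matrix (Fin n) (Fin n) ℤ) (t : ℕ → Fin n → ℝ),
    (∀ k, (M k).det = 1 ∨ (M k).det = -1) ∧ (∀ k, ∏ i, t k i = 1) ∧ (∀ k, t k a = t k b) ∧
    ∀ i j, Tendsto (fun k => t k i * ∑ l, L i l * (M k l j : ℝ)) atTop (𝓝 (L' i j))

/-- The arrow from `i` to `k`: two limits `L'`, `L''` of `L` differ only in their `i`-th forms,
and `L''_i = L'_i + L'_k`. -/
def Arrow {n : ℕ} (L : Fin n → Fin n → ℝ) (i k : Fin n) : Prop :=
  i ≠ k ∧ ∃ L' L'' : Fin n → Fin n → ℝ, IsLimit L L' ∧ IsLimit L L'' ∧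
    ∀ m, L'' m = if m = i then L' i + L' k else L' m

/-- `L` is a wall limit of each of its wall limits. -/
def Recurrent {n : ℕ} (a b : Fin n) (L : Fin n → Fin n → ℝ) : Prop :=
  ∀ L' : Fin n → Fin n → ℝ, WallLimit a b L L' → WallLimit a b L' L

theorem isLimit_iff {n : ℕ} {L L' : Fin n → Fin n → ℝ} : IsLimit L L' ↔ L' ∈ closure (orb L) :=
  ⟨fun h => PairResult.limit_orb h, fun h => mem_closure_orb h⟩

theorem wallLimit_iff {n : ℕ} {a b : Fin n} {L L' : Fin n → Fin n → ℝ} :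
    WallLimit a b L L' ↔ L' ∈ closure (Root.worb a b L) := by
  constructor
  · rintro ⟨M, t, hM, ht, hab, hlim⟩
    refine mem_closure_of_tendsto (f := fun k => tr L (M k) (t k)) (b := atTop)
      (tendsto_pi_nhds.mpr fun i => tendsto_pi_nhds.mpr fun j => hlim i j)
      (Eventually.of_forall fun k => ⟨M k, t k, hM k, ht k, hab k, rfl⟩)
  · intro h
    rw [mem_closure_iff_seq_limit] at h
    obtain ⟨x, hx, hlim⟩ := h
    choose M t hM ht hab hxe using hx
    refine ⟨M, t, hM, ht, hab, fun i j => ?_⟩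
    have h1 := (tendsto_pi_nhds.mp ((tendsto_pi_nhds.mp hlim) i)) j
    refine h1.congr fun k => ?_
    rw [hxe k]
    rfl

theorem scale_eq {n : ℕ} (L : Fin n → Fin n → ℝ) (t : Fin n → ℝ) :
    (fun a b => t a * L a b) = tr L 1 t := by
  funext a b
  unfold tr
  simp [Matrix.one_apply]

theorem arrow_of_pr {n : ℕ} {L : Fin n → Fin n → ℝ} {i k : Fin n} (hik : i ≠ k)
    (h : Root.Pr (closure (orb L)) i k) : Arrow L i k := by
  obtain ⟨Z, hZ, Z', hZ', hrel⟩ := h
  refine ⟨hik, Z, Z', mem_closure_orb hZ, mem_closure_orb hZ', fun m => ?_⟩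
  funext b
  rw [hrel m b]
  split_ifs with h
  · rw [h]; rfl
  · rw [add_zero]

theorem forward {n : ℕ} (hn : 3 ≤ n) {L : Fin n → Fin n → ℝ} (hL : LinearIndependent ℝ L)
    (hb : Bounded L) (hconc : Conclusion L) :
    (∀ i k : Fin n, ¬ Arrow L i k) ∧
      ∀ i k : Fin n, i ≠ k → ∀ L', IsLimit L L' →
        Recurrent i k L' ∧
        ∀ t : Fin n → ℝ, ∏ a, t a = 1 → 0 < t i * t k →
          WallLimit i k L' (fun a b => t a * L' a b) := by
  obtain ⟨c, hc, hlow⟩ := hb
  have hLdet := (li_iff_det L).mp hL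
  refine ⟨fun i k => ?_, fun i k hik L' hL' => ?_⟩
  · rintro ⟨hik, L', L'', h1, h2, h3⟩
    exact (PairResult.result.1 n hn L hL ⟨c, hc, hlow⟩).mpr ⟨L', L'', h1, h2, i, k, hik, h3⟩ hconc
  · obtain ⟨A, μ, hμ, hA⟩ := PairResult.eigen_of_conclusion hL hconc
    obtain ⟨C, hC⟩ := values_of_matrix hμ hA
    have hL'c := isLimit_iff.mp hL'
    have hL'o : L' ∈ orb L := closed_orbit hLdet hC hL'c
    obtain ⟨A', hA'⟩ := PairResult.eigen_orb hL'o hA
    have hdet' : (Matrix.of L').det ≠ 0 := by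
      rw [← abs_pos, orb_det hL'c]; exact abs_pos.mpr hLdet
    have hne' : ∀ p : Fin n → ℤ, p ≠ 0 → ∀ i, ∑ j, L' i j * (p j : ℝ) ≠ 0 := by
      intro p hp i h0
      have h3 := orb_lower hL'c hlow p hp
      rw [Finset.prod_eq_zero (Finset.mem_univ i) h0, abs_zero] at h3
      linarith
    obtain ⟨C', hC'⟩ := values_of_matrix hμ hA'
    refine ⟨fun L'' hL'' => ?_, fun t ht htik => ?_⟩
    · rw [wallLimit_iff] at hL'' ⊢
      exact Root.recurrent hn hdet' hne' hμ hA' hik
        (fun X hX => closed_orbit hdet' hC' hX) hL''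
    · rw [wallLimit_iff, scale_eq]
      exact Root.scaled_mem hn hdet' hne' hμ hA' hik ht htik

open Classical in
theorem degrees {n : ℕ} (hn : 3 ≤ n) {L : Fin n → Fin n → ℝ} (hL : LinearIndependent ℝ L)
    (hb : Bounded L) (hnot : ¬ Conclusion L) (i : Fin n) :
    n.minFac - 1 ≤ (Finset.univ.filter fun k => Arrow L i k).card ∧
      n.minFac - 1 ≤ (Finset.univ.filter fun k => Arrow L k i).card := by
  obtain ⟨c, hc, hlow⟩ := hb
  constructor
  · refine (Root.out_deg hn hL hc hlow hnot i).trans (Finset.card_le_card fun k hk => ?_)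
    rw [Finset.mem_filter] at hk ⊢
    exact ⟨Finset.mem_univ k, arrow_of_pr (Ne.symm hk.2.1) hk.2.2⟩
  · refine (Root.in_deg hn hL hc hlow hnot i).trans (Finset.card_le_card fun k hk => ?_)
    rw [Finset.mem_filter] at hk ⊢
    exact ⟨Finset.mem_univ k, arrow_of_pr hk.2.1 hk.2.2⟩

open Classical in
theorem walls {n : ℕ} (hn : 3 ≤ n) {L : Fin n → Fin n → ℝ} (hL : LinearIndependent ℝ L)
    (hb : Bounded L) (hnot : ¬ Conclusion L) (i : Fin n) (K : Finset (Fin n)) (hiK : i ∉ K)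
    (hK : n - n.minFac + 1 ≤ K.card) (L' : Fin n → Fin n → ℝ) (hL' : IsLimit L L') :
    ∃ k ∈ K, Recurrent i k L' →
      ∀ t : Fin n → ℝ, ∏ a, t a = 1 → |t i| ≠ |t k| →
        ¬ WallLimit i k L' (fun a b => t a * L' a b) := by
  obtain ⟨c, hc, hlow⟩ := hb
  have hLdet := (li_iff_det L).mp hL
  have hL'c := isLimit_iff.mp hL'
  have hdet' : (Matrix.of L').det ≠ 0 := by
    rw [← abs_pos, orb_det hL'c]; exact abs_pos.mpr hLdet
  have hlow' := orb_lower hL'c hlow
  -- the conclusion fails for the limit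
  have hnot' : ¬ Root.Cn L' := by
    rintro ⟨A, hdetA, hirr, hreal, hinv⟩
    apply hnot
    obtain ⟨M, t, hM, ht, hlim⟩ := mem_closure_orb hL'c
    refine Pool.Agent.Work.MP_77d073_nt.HypResult.result n hn L hL ⟨c, hc, hlow⟩
      M t L' (fun k => (hM k).ne_zero) ht hlim i (A.map (Int.castRingHom ℚ)) ?_ ?_
    · rw [Matrix.charpoly_map]; exact hirr
    · intro x hx
      have h1 := hinv i x hx
      simpa [Matrix.map_map, Function.comp_def] using h1
  have hdeg := Root.out_deg hn ((li_iff_det L').mpr hdet') hc hlow' hnot' i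
  obtain ⟨k, hkK, hk⟩ : ∃ k ∈ K, k ≠ i ∧ Root.Pr (closure (orb L')) i k := by
    by_contra hcon
    push Not at hcon
    have h1 : Disjoint K (Finset.univ.filter fun k => k ≠ i ∧ Root.Pr (closure (orb L')) i k) := by
      rw [Finset.disjoint_left]
      intro k hk hk'
      rw [Finset.mem_filter] at hk'
      exact hcon k hk hk'.2.1 hk'.2.2
    have h2 : K ∪ (Finset.univ.filter fun k => k ≠ i ∧ Root.Pr (closure (orb L')) i k) ⊆
        ({i}ᶜ : Finset (Fin n)) := by
      intro k hk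
      rw [Finset.mem_compl, Finset.mem_singleton]
      rcases Finset.mem_union.mp hk with h | h
      · rintro rfl; exact hiK h
      · exact (Finset.mem_filter.mp h).2.1
    have h3 := Finset.card_le_card h2
    rw [Finset.card_union_of_disjoint h1, Finset.card_compl, Finset.card_singleton,
      Fintype.card_fin] at h3
    have h4 := Nat.minFac_le (n := n) (by omega)
    have h5 : 2 ≤ n.minFac := (Nat.minFac_prime (by omega)).two_le
    omega
  refine ⟨k, hkK, fun hrec t ht hti hW => ?_⟩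
  rw [wallLimit_iff, scale_eq] at hW
  exact Root.wall_min hn (Ne.symm hk.1) hc hlow'
    (fun y' hy' => wallLimit_iff.mp (hrec y' (wallLimit_iff.mpr hy'))) ht hti hW hk.2

theorem exists_scaling {n : ℕ} (hn : 3 ≤ n) {i k : Fin n} (hik : i ≠ k) :
    ∃ t : Fin n → ℝ, ∏ a, t a = 1 ∧ 0 < t i * t k ∧ |t i| ≠ |t k| := by
  classical
  obtain ⟨m, hm⟩ : ∃ m : Fin n, m ∉ ({i, k} : Finset (Fin n)) := by
    by_contra hcon
    push Not at hcon
    have h1 : (Finset.univ : Finset (Fin n)) ⊆ {i, k} := fun m _ => hcon m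
    have h2 := (Finset.card_le_card h1).trans Finset.card_le_two
    rw [Finset.card_univ, Fintype.card_fin] at h2
    omega
  rw [Finset.mem_insert, Finset.mem_singleton, not_or] at hm
  refine ⟨fun a => if a = i then 2 else if a = m then 1 / 2 else 1, ?_, ?_, ?_⟩
  · have h1 : ∀ a : Fin n, (if a = i then (2 : ℝ) else if a = m then 1 / 2 else 1) =
        (if a = i then 2 else 1) * (if a = m then 1 / 2 else 1) := by
      intro a
      by_cases h : a = i
      · rw [if_pos h, if_pos h, if_neg (fun h' => hm.1 (h'.symm.trans h)), mul_one]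
      · rw [if_neg h, if_neg h, one_mul]
    simp only [h1]
    rw [Finset.prod_mul_distrib, Finset.prod_ite_eq' Finset.univ i, Finset.prod_ite_eq' Finset.univ m]
    simp
  · simp [hik.symm, Ne.symm hm.2]
  · simp [hik.symm, Ne.symm hm.2]

theorem self_limit {n : ℕ} (L : Fin n → Fin n → ℝ) : IsLimit L L := by
  refine ⟨fun _ => 1, fun _ _ => 1, fun _ => Or.inl Matrix.det_one, fun _ => by simp, ?_⟩
  intro i j
  refine (tendsto_const_nhds (x := L i j)).congr fun k => ?_
  simp [Matrix.one_apply]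

open Classical in
/-- Oppenheim's conjecture, directions of elementary changes, and walls. `n.minFac` is the least
prime factor of `n`. -/
theorem result (n : ℕ) (hn : 3 ≤ n) (L : Fin n → Fin n → ℝ) (hL : LinearIndependent ℝ L)
    (hb : Bounded L) :
    List.TFAE [
      Conclusion L,
      ∀ i k : Fin n, ¬ Arrow L i k,
      ∃ i : Fin n, (Finset.univ.filter fun k => Arrow L i k).card < n.minFac - 1,
      ∃ i : Fin n, (Finset.univ.filter fun k => Arrow L k i).card < n.minFac - 1,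
      ∀ L', IsLimit L L' → ∀ i k : Fin n, i ≠ k →
        Recurrent i k L' ∧
        ∀ t : Fin n → ℝ, ∏ a, t a = 1 → 0 < t i * t k →
          WallLimit i k L' (fun a b => t a * L' a b),
      ∃ L', IsLimit L L' ∧ ∃ (i : Fin n) (K : Finset (Fin n)),
        i ∉ K ∧ n - n.minFac + 1 ≤ K.card ∧ ∀ k ∈ K,
          Recurrent i k L' ∧
          ∃ t : Fin n → ℝ, ∏ a, t a = 1 ∧ |t i| ≠ |t k| ∧
            WallLimit i k L' (fun a b => t a * L' a b)] := by
  have hp : 2 ≤ n.minFac := (Nat.minFac_prime (by omega)).two_le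
  have hpn : n.minFac ≤ n := Nat.minFac_le (by omega)
  have i0 : Fin n := ⟨0, by omega⟩
  tfae_have 1 → 2 := fun h => (forward hn hL hb h).1
  tfae_have 2 → 3 := by
    intro h
    refine ⟨i0, ?_⟩
    rw [Finset.filter_false_of_mem fun k _ => h i0 k, Finset.card_empty]
    omega
  tfae_have 2 → 4 := by
    intro h
    refine ⟨i0, ?_⟩
    rw [Finset.filter_false_of_mem fun k _ => h k i0, Finset.card_empty]
    omega
  tfae_have 3 → 1 := by
    rintro ⟨i, hi⟩
    by_contra hnot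
    have := (degrees hn hL hb hnot i).1
    omega
  tfae_have 4 → 1 := by
    rintro ⟨i, hi⟩
    by_contra hnot
    have := (degrees hn hL hb hnot i).2
    omega
  tfae_have 1 → 5 := fun h L' hL' i k hik => (forward hn hL hb h).2 i k hik L' hL'
  tfae_have 5 → 6 := by
    intro h
    refine ⟨L, self_limit L, i0, {i0}ᶜ, by simp, ?_, ?_⟩
    · rw [Finset.card_compl, Finset.card_singleton, Fintype.card_fin]
      omega
    · intro k hk
      have hik : i0 ≠ k := by
        rw [Finset.mem_compl, Finset.mem_singleton] at hk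
        exact Ne.symm hk
      obtain ⟨h1, h2⟩ := h L (self_limit L) i0 k hik
      obtain ⟨t, ht1, ht2, ht3⟩ := exists_scaling hn hik
      exact ⟨h1, t, ht1, ht3, h2 t ht1 ht2⟩
  tfae_have 6 → 1 := by
    rintro ⟨L', hL', i, K, hiK, hK, h⟩
    by_contra hnot
    obtain ⟨k, hkK, hk⟩ := walls hn hL hb hnot i K hiK hK L' hL'
    obtain ⟨h1, t, ht1, ht2, ht3⟩ := h k hkK
    exact hk h1 t ht1 ht2 ht3
  tfae_finish

end Pool.Agent.Work.MP_77d073_nt.Old.RootsAndWalls
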